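import Pool.Agent.MWGR.StmtsF

/-!
# MWGR, row RNM: permutations of the letters
-/

set_option autoImplicit false

namespace Pool.Agent.MWGR.H35

open Pool.Agent.Helper14_MV Pool.Agent.Helper2_MV Pool.Agent.MVO Pool.Agent.MWL Pool.Agent.MWS
  Pool.Agent.MWH Pool.Agent.MWGR

theorem rr_map (π : ℕ → ℕ) {β : FIC} {u v : List ℕ} (h : RR β u v) :
    RR β (u.map π) (v.map π) := by
  have h1 := RR.sub (fun c => [π c]) h
  have e : ∀ l : List ℕ, l.flatMap (fun c => [π c]) = l.map π := by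
    intro l
    induction l with
    | nil => rfl
    | cons a l ih => simp [List.flatMap_cons, ih]
  rwa [e, e] at h1

theorem rr_iff (π : Equiv.Perm ℕ) (β : FIC) (u v : List ℕ) :
    RR β u v ↔ RR β (u.map π) (v.map π) := by
  refine ⟨fun h => rr_map π h, fun h => ?_⟩
  have h1 := rr_map π.symm h
  rw [List.map_map, List.map_map] at h1
  have e : (⇑(Equiv.symm π) ∘ ⇑π) = id := by
    funext c
    simp
  rw [e, List.map_id, List.map_id] at h1
  exact h1

/-- ROW RNM -/
theorem rnm : RnmStmt := by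
  intro π u v
  refine ⟨fun β => rr_iff π β u v, fun β => ?_⟩
  unfold JPp
  simp only
  constructor
  · intro h ρ σ h1 h2 h3 h4 h5
    rcases h ρ σ h1 h2 h3 h4 ((rr_iff π _ u v).2 h5) with h6 | h6
    · exact Or.inl ((rr_iff π _ u v).1 h6)
    · exact Or.inr ((rr_iff π _ u v).1 h6)
  · intro h ρ σ h1 h2 h3 h4 h5
    rcases h ρ σ h1 h2 h3 h4 ((rr_iff π _ u v).1 h5) with h6 | h6
    · exact Or.inl ((rr_iff π _ u v).2 h6)
    · exact Or.inr ((rr_iff π _ u v).2 h6)

end Pool.Agent.MWGR.H35
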